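import Pool.Agent.KS6_17.PO.Tot

set_option autoImplicit false

/-!
# Embedding partially ordered groups in lattice-ordered groups, preserving suprema and infima

Q1 is answered inside every variety of lattice-ordered groups, with a universal embedding, and with
sharp criteria for representable and for abelian lattice-ordered groups.

* `OrderEmb ψ`: `ψ` is an order-embedding; `Complete ψ`: `ψ` preserves all existing suprema and
  infima; `IsLHom f`: `f` is a homomorphism of lattice-ordered groups.
* `LTerm X`: the terms in the language of lattice-ordered groups; `Sat E H`: `H` satisfies the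
  identities in `E` (so `E` stands for a variety).
* `IsLQuotient N π`: `N` is closed under `⊔`, `⊓` and `π : N → H` is a surjective homomorphism of
  lattice-ordered groups.
* `IsTotalPreorder r`: `r` is a total preorder, invariant under multiplication on both sides.
* `IsSubdirect H`: the homomorphisms of `H` onto totally ordered groups determine the order of `H`
  (so `H` is a subdirect product of totally ordered groups).
* `GroupLaws G H`: every group law of `G` (for example commutativity, nilpotency of class `c`,
  solubility of length `l`) is a law of `H`.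
-/

namespace Pool.Agent.Results.MP_98d06d_al.EveryVariety

open Pool.Agent.KS6_17.PO

universe u

/-- (1) Let `φ : G → F` be an order-embedding of a p.o. group in a lattice-ordered group. There are a
lattice-ordered subgroup `N ⊇ φ(G)` of `F` and a homomorphism `π` of `N` onto a lattice-ordered group
`H` such that `π ∘ φ` is an order-embedding preserving all existing suprema and infima; `H` satisfies
all identities of `F`.
(2) For every p.o. group `G` and every set `E` of identities there is a universal homomorphism `υ` of
`G`, preserving all existing suprema and infima, to a lattice-ordered group `U` satisfying `E`; it is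
an order-embedding if and only if `G` has some order-embedding in a lattice-ordered group satisfying
`E`.
(3) (Q1) If the order of `G` is the intersection of right orders, then `G` has an order-embedding in
a lattice-ordered group which preserves all existing suprema and infima.
(4) The order of `G` is the intersection of two-sided invariant total preorders if and only if `G`
has an order-embedding, preserving all existing suprema and infima, in a subdirect product of
totally ordered groups; and this group can be chosen to satisfy all group laws of `G`.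
(5) An abelian p.o. group `G` has an order-embedding in an abelian lattice-ordered group preserving
all existing suprema and infima if and only if `1 ≤ g ^ n`, `n > 0`, implies `1 ≤ g` in `G`. -/
theorem result :
    (∀ (G F : Type u) [Group G] [PartialOrder G] [MulLeftMono G] [MulRightMono G]
      [Group F] [Lattice F] [MulLeftMono F] [MulRightMono F] (φ : G →* F), OrderEmb φ →
      ∃ (H : Type u) (_ : Group H) (_ : Lattice H) (_ : MulLeftMono H) (_ : MulRightMono H)
        (N : Subgroup F) (π : N →* H) (hG : ∀ g, φ g ∈ N),
        IsLQuotient N π ∧ OrderEmb (π.comp (φ.codRestrict N hG)) ∧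
          Complete (π.comp (φ.codRestrict N hG)) ∧
          ∀ E : Set (LTerm ℕ × LTerm ℕ), Sat E F → Sat E H) ∧
    (∀ (G : Type u) [Group G] [PartialOrder G] [MulLeftMono G] [MulRightMono G]
      (E : Set (LTerm ℕ × LTerm ℕ)),
      ∃ (U : Type u) (_ : Group U) (_ : Lattice U) (_ : MulLeftMono U) (_ : MulRightMono U)
        (υ : G →* U), Sat E U ∧ Complete υ ∧ (∀ a : U, ∃ t : LTerm G, t.eval υ = a) ∧
        (∀ (K : Type u) [Group K] [Lattice K] [MulLeftMono K] [MulRightMono K] (χ : G →* K),
          Sat E K → Complete χ → ∃! f : U →* K, IsLHom f ∧ ∀ g, f (υ g) = χ g) ∧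
        (OrderEmb υ ↔ ∃ (F : Type u) (_ : Group F) (_ : Lattice F) (_ : MulLeftMono F)
          (_ : MulRightMono F) (φ : G →* F), Sat E F ∧ OrderEmb φ)) ∧
    (∀ (G : Type u) [Group G] [PartialOrder G] [MulLeftMono G] [MulRightMono G]
      (R : Set (G → G → Prop)), (∀ r ∈ R, Embed.IsRightOrder r) →
      (∀ a b : G, a ≤ b ↔ ∀ r ∈ R, r a b) →
      ∃ (H : Type u) (_ : Group H) (_ : Lattice H) (_ : MulLeftMono H) (_ : MulRightMono H)
        (ψ : G →* H), OrderEmb ψ ∧ Complete ψ) ∧
    (∀ (G : Type u) [Group G] [PartialOrder G] [MulLeftMono G] [MulRightMono G],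
      ((∃ R : Set (G → G → Prop), (∀ r ∈ R, IsTotalPreorder r) ∧
        ∀ a b : G, a ≤ b ↔ ∀ r ∈ R, r a b) ↔
      ∃ (H : Type u) (_ : Group H) (_ : Lattice H) (_ : MulLeftMono H) (_ : MulRightMono H)
        (ψ : G →* H), OrderEmb ψ ∧ Complete ψ ∧ IsSubdirect H ∧ GroupLaws G H)) ∧
    (∀ (G : Type u) [CommGroup G] [PartialOrder G] [MulLeftMono G] [MulRightMono G],
      ((∀ (g : G) (n : ℕ), 0 < n → 1 ≤ g ^ n → 1 ≤ g) ↔
      ∃ (H : Type u) (_ : CommGroup H) (_ : Lattice H) (_ : MulLeftMono H) (_ : MulRightMono H)
        (ψ : G →* H), OrderEmb ψ ∧ Complete ψ)) := by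
  refine ⟨?_, ?_, ?_, ?_, ?_⟩
  · intro G F _ _ _ _ _ _ _ _ φ hφ
    obtain ⟨H, i1, i2, i3, i4, N, π, hG, hq, ho, hc⟩ := relative φ hφ.2
    exact ⟨H, i1, i2, i3, i4, N, π, hG, hq, ho, hc, fun E hE => hq.sat hE⟩
  · intro G _ _ _ _ E
    exact universal G E
  · intro G _ _ _ _ R hR hG
    obtain ⟨H, i1, i2, i3, i4, ψ, h1, h2, h3, h4⟩ := Embed.result R hR hG
    exact ⟨H, i1, i2, i3, i4, ψ, ⟨h1, h2⟩, h3, h4⟩
  · intro G _ _ _ _
    constructor
    · rintro ⟨R, hR, hG⟩
      exact total_embedding hR hG
    · rintro ⟨H, _, _, _, _, ψ, ho, -, hs, -⟩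
      exact total_of_subdirect hs ψ ho
  · intro G _ _ _ _
    constructor
    · intro hiso
      obtain ⟨H, i1, i2, i3, i4, ψ, ho, hc, -, hcomm⟩ := abelian_embedding mul_comm hiso
      exact ⟨H, { i1 with mul_comm := hcomm }, i2, i3, i4, ψ, ho, hc⟩
    · rintro ⟨H, _, _, _, _, ψ, ho, -⟩ g n hn hg
      have h1 : 1 ≤ (ψ g) ^ n := by
        have := (ho.2 _ _).1 hg
        rwa [map_one, map_pow] at this
      have h2 := isolated_of_comm (H := H) mul_comm (ψ g) n hn h1
      rw [ho.2, map_one]
      exact h2

end Pool.Agent.Results.MP_98d06d_al.EveryVariety
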